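import Mathlib

/-!
Quotients of finitely generated groups of class at most two are residually finite
(in the form of helper22's Part 1, MP_064e8c_al).
-/

namespace Pool.Agent.H44RF

open Subgroup

theorem comm_mul_left {G : Type*} [Group G]
    (h2 : ∀ a b c : G, a * b * a⁻¹ * b⁻¹ * c = c * (a * b * a⁻¹ * b⁻¹)) (a a' b : G) :
    (a * a') * b * (a * a')⁻¹ * b⁻¹ = (a * b * a⁻¹ * b⁻¹) * (a' * b * a'⁻¹ * b⁻¹) := by
  have h := h2 a' b (a * b * a⁻¹ * b⁻¹)
  have h' := h2 a' b a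
  calc (a * a') * b * (a * a')⁻¹ * b⁻¹ = a * (a' * b * a'⁻¹ * b⁻¹) * (b * a⁻¹ * b⁻¹) := by group
    _ = (a' * b * a'⁻¹ * b⁻¹) * a * (b * a⁻¹ * b⁻¹) := by rw [h']
    _ = (a' * b * a'⁻¹ * b⁻¹) * (a * b * a⁻¹ * b⁻¹) := by group
    _ = _ := h

theorem comm_inv {G : Type*} [Group G] (a b : G) :
    (a * b * a⁻¹ * b⁻¹)⁻¹ = b * a * b⁻¹ * a⁻¹ := by group

theorem comm_pow {G : Type*} [Group G]
    (h2 : ∀ a b c : G, a * b * a⁻¹ * b⁻¹ * c = c * (a * b * a⁻¹ * b⁻¹)) (a b : G) (n : ℕ) :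
    a ^ n * b * (a ^ n)⁻¹ * b⁻¹ = (a * b * a⁻¹ * b⁻¹) ^ n := by
  induction n with
  | zero => simp
  | succ n ih => rw [pow_succ, comm_mul_left h2, ih, pow_succ]

/-- exponent on the closure -/
theorem comm_exp_left {G : Type*} [Group G]
    (h2 : ∀ a b c : G, a * b * a⁻¹ * b⁻¹ * c = c * (a * b * a⁻¹ * b⁻¹))
    (S : Set G) (hS : closure S = ⊤) (e : ℕ) (b : G)
    (h : ∀ a ∈ S, (a * b * a⁻¹ * b⁻¹) ^ e = 1) (a : G) : (a * b * a⁻¹ * b⁻¹) ^ e = 1 := by
  have ha : a ∈ closure S := by rw [hS]; trivial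
  induction ha using closure_induction with
  | mem x hx => exact h x hx
  | one => simp
  | mul x y _ _ hx hy =>
    rw [comm_mul_left h2, (show Commute (x * b * x⁻¹ * b⁻¹) (y * b * y⁻¹ * b⁻¹) from
      h2 x b _).mul_pow, hx, hy, one_mul]
  | inv x _ hx =>
    have h1 := comm_mul_left h2 x x⁻¹ b
    have h3 : (x⁻¹ * b * x⁻¹⁻¹ * b⁻¹) = (x * b * x⁻¹ * b⁻¹)⁻¹ := by
      rw [mul_inv_cancel] at h1
      have h4 : (1 : G) * b * (1 : G)⁻¹ * b⁻¹ = 1 := by group
      rw [h4] at h1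
      exact eq_inv_of_mul_eq_one_right h1.symm
    rw [h3, inv_pow, hx, inv_one]

theorem finite_of_center_torsion {G : Type*} [Group G] [Group.FG G]
    (h2 : ∀ a b c : G, a * b * a⁻¹ * b⁻¹ * c = c * (a * b * a⁻¹ * b⁻¹))
    (ht : ∀ z ∈ center G, IsOfFinOrder z) : Finite G := by
  classical
  obtain ⟨S, hS⟩ := (Group.fg_def.1 ‹Group.FG G›)
  have hcz : ∀ a b : G, a * b * a⁻¹ * b⁻¹ ∈ center G := by
    intro a b
    rw [mem_center_iff]
    intro g
    exact (h2 a b g).symm
  set e : ℕ := ∏ p ∈ S ×ˢ S, orderOf (p.1 * p.2 * p.1⁻¹ * p.2⁻¹) with he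
  have hepos : 0 < e := by
    apply Finset.prod_pos
    intro p _
    exact (ht _ (hcz p.1 p.2)).orderOf_pos
  have hSS : ∀ a ∈ S, ∀ b ∈ S, (a * b * a⁻¹ * b⁻¹) ^ e = 1 := by
    intro a ha b hb
    rw [← orderOf_dvd_iff_pow_eq_one]
    have hab : (a, b) ∈ S ×ˢ S := Finset.mem_product.2 ⟨ha, hb⟩
    exact Finset.dvd_prod_of_mem (fun p : G × G => orderOf (p.1 * p.2 * p.1⁻¹ * p.2⁻¹)) hab
  have h3 : ∀ b ∈ S, ∀ a : G, (a * b * a⁻¹ * b⁻¹) ^ e = 1 := fun b hb a =>
    comm_exp_left h2 (S : Set G) hS e b (fun a ha => hSS a ha b hb) a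
  have h4 : ∀ a b : G, (a * b * a⁻¹ * b⁻¹) ^ e = 1 := by
    intro a b
    have := comm_exp_left h2 (S : Set G) hS e a (fun c hc => by
      have h5 := h3 c hc a
      rw [← comm_inv, inv_pow, h5, inv_one]) b
    rw [← comm_inv, inv_pow, this, inv_one]
  have h6 : ∀ g : G, g ^ e ∈ center G := by
    intro g
    rw [mem_center_iff]
    intro h
    have h7 := comm_pow h2 g h e
    rw [h4 g h] at h7
    have h8 : g ^ e * h * (g ^ e)⁻¹ * h⁻¹ * (h * g ^ e) = h * g ^ e := by rw [h7, one_mul]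
    rw [← h8]
    group
  haveI : Finite (G ⧸ center G) := by
    letI : CommGroup (G ⧸ center G) :=
      { (inferInstance : Group (G ⧸ center G)) with
        mul_comm := by
          intro x y
          induction x using QuotientGroup.induction_on with
          | H a =>
            induction y using QuotientGroup.induction_on with
            | H b =>
              rw [← QuotientGroup.mk_mul, ← QuotientGroup.mk_mul, QuotientGroup.eq]
              have : (a * b)⁻¹ * (b * a) = b⁻¹ * a⁻¹ * b⁻¹⁻¹ * a⁻¹⁻¹ := by group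
              rw [this]
              exact hcz _ _ }
    haveI : Group.FG (G ⧸ center G) := inferInstance
    apply CommGroup.finite_of_fg_torsion
    intro x
    induction x using QuotientGroup.induction_on with
    | H a =>
      rw [isOfFinOrder_iff_pow_eq_one]
      refine ⟨e, hepos, ?_⟩
      have : (QuotientGroup.mk a : G ⧸ center G) ^ e = QuotientGroup.mk (a ^ e) := rfl
      rw [this]
      exact (QuotientGroup.eq_one_iff _).2 (h6 a)
  haveI : (center G).FiniteIndex := Subgroup.finiteIndex_of_finite_quotient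
  haveI hfgc : Group.FG (center G) := Subgroup.fg_of_index_ne_zero (center G)
  haveI : Finite (center G) := by
    let cg : CommGroup (center G) :=
      { (inferInstance : Group (center G)) with
        mul_comm := fun a b => Subtype.ext (mem_center_iff.1 b.2 a.1) }
    refine @CommGroup.finite_of_fg_torsion (center G) cg hfgc ?_
    intro z
    have := ht z.1 z.2
    exact (Submonoid.isOfFinOrder_coe).1 this
  exact Finite.of_equiv _ (Subgroup.groupEquivQuotientProdSubgroup (s := center G)).symm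

theorem rf {G : Type*} [Group G] [Group.FG G]
    (h2 : ∀ a b c : G, a * b * a⁻¹ * b⁻¹ * c = c * (a * b * a⁻¹ * b⁻¹))
    (C : Subgroup G) [C.Normal] (y : G) (hy : y ∉ C) :
    ∃ K : Subgroup G, K.Normal ∧ K.FiniteIndex ∧ C ≤ K ∧ y ∉ K := by
  classical
  obtain ⟨K, hCK, hK⟩ := zorn_le_nonempty₀ {K : Subgroup G | K.Normal ∧ C ≤ K ∧ y ∉ K} (by
    intro c hc hchain z hz
    have hdir : DirectedOn (· ≤ ·) c := hchain.directedOn
    have hne : c.Nonempty := ⟨z, hz⟩
    refine ⟨sSup c, ⟨⟨?_⟩, ?_, ?_⟩, fun w hw => le_sSup hw⟩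
    · intro n hn g
      rw [mem_sSup_of_directedOn hne hdir] at hn ⊢
      obtain ⟨s, hs, hns⟩ := hn
      exact ⟨s, hs, (hc hs).1.conj_mem n hns g⟩
    · exact (hc hz).2.1.trans (le_sSup hz)
    · rw [mem_sSup_of_directedOn hne hdir]
      rintro ⟨s, hs, hys⟩
      exact (hc hs).2.2 hys) C ⟨inferInstance, le_refl _, hy⟩
  have hKn : K.Normal := hK.prop.1
  have hyK : y ∉ K := hK.prop.2.2
  have key : ∀ z : G ⧸ K, z ∈ center (G ⧸ K) → z ≠ 1 → (QuotientGroup.mk y : G ⧸ K) ∈ zpowers z := by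
    intro z hz hz1
    by_contra hcon
    have hzn : (zpowers z).Normal := by
      constructor
      intro n hn g
      obtain ⟨k, rfl⟩ := mem_zpowers_iff.1 hn
      have : g * z ^ k = z ^ k * g := (mem_center_iff.1 ((center (G ⧸ K)).zpow_mem hz k)) g
      rw [this]
      simp
    have hmem : (zpowers z).comap (QuotientGroup.mk' K) ∈
        {K : Subgroup G | K.Normal ∧ C ≤ K ∧ y ∉ K} := by
      refine ⟨hzn.comap _, ?_, ?_⟩
      · intro c hc
        rw [mem_comap]
        have : (QuotientGroup.mk' K) c = 1 := (QuotientGroup.eq_one_iff c).2 (hK.prop.2.1 hc)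
        rw [this]
        exact one_mem _
      · rw [mem_comap]
        exact hcon
    have hle : K ≤ (zpowers z).comap (QuotientGroup.mk' K) := by
      intro c hc
      rw [mem_comap]
      have : (QuotientGroup.mk' K) c = 1 := (QuotientGroup.eq_one_iff c).2 hc
      rw [this]
      exact one_mem _
    have hle2 := hK.le_of_ge hmem hle
    obtain ⟨w, rfl⟩ := QuotientGroup.mk_surjective z
    apply hz1
    rw [QuotientGroup.eq_one_iff]
    apply hle2
    rw [mem_comap]
    exact mem_zpowers _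
  have h2' : ∀ a b c : G ⧸ K, a * b * a⁻¹ * b⁻¹ * c = c * (a * b * a⁻¹ * b⁻¹) := by
    intro a b c
    obtain ⟨a, rfl⟩ := QuotientGroup.mk_surjective a
    obtain ⟨b, rfl⟩ := QuotientGroup.mk_surjective b
    obtain ⟨c, rfl⟩ := QuotientGroup.mk_surjective c
    exact congrArg (QuotientGroup.mk : G → G ⧸ K) (h2 a b c)
  have ht : ∀ z ∈ center (G ⧸ K), IsOfFinOrder z := by
    intro z hz
    by_contra hnf
    have hpow : ∀ n : ℤ, n ≠ 0 → z ^ n ≠ 1 := by
      intro n hn h1
      exact hnf (isOfFinOrder_iff_zpow_eq_one.2 ⟨n, hn, h1⟩)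
    have hz1 : z ≠ 1 := by
      rintro rfl
      exact hnf IsOfFinOrder.one
    obtain ⟨a, ha⟩ := mem_zpowers_iff.1 (key z hz hz1)
    have ha0 : a ≠ 0 := by
      rintro rfl
      rw [zpow_zero] at ha
      exact hyK ((QuotientGroup.eq_one_iff y).1 ha.symm)
    obtain ⟨b, hb⟩ := mem_zpowers_iff.1 (key (z ^ (2 * a)) ((center (G ⧸ K)).zpow_mem hz _)
      (hpow _ (by omega)))
    rw [← zpow_mul] at hb
    have h5 : z ^ (2 * a * b - a) = 1 := by
      rw [zpow_sub, hb, ha, mul_inv_cancel]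
    apply hpow _ _ h5
    intro h6
    have h7 : a * (2 * b - 1) = 0 := by linarith
    rcases mul_eq_zero.1 h7 with h8 | h8
    · exact ha0 h8
    · omega
  haveI : Finite (G ⧸ K) := finite_of_center_torsion h2' ht
  exact ⟨K, hKn, Subgroup.finiteIndex_of_finite_quotient, hCK, hyK⟩

end Pool.Agent.H44RF
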